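import Pool.Agent.Helper43.Hw.Goals

/-!
Packet H1: old points.
-/

set_option autoImplicit false

namespace Pool.Agent.Helper43.Hw.PkH1

open Finset
open Pool.Agent.Helper43.Gm (st mv nn Run Pri)
open Pool.Agent.Helper43.Hw

/-- Counting an initial segment. -/
theorem cnt {R : ℕ} {f : ℕ → ℕ} (hf : ∀ y, y + 1 < R → f y ≤ f (y + 1)) (c : ℕ) {y : ℕ}
    (hy : y < R) : f y ≤ c ↔ y < ((range R).filter (fun y => f y ≤ c)).card := by
  have hm : ∀ z z', z ≤ z' → z' < R → f z ≤ f z' := by
    intro z z' h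
    induction h with
    | refl => intro _; exact le_rfl
    | step _ ih => intro h2; exact (ih (by omega)).trans (hf _ h2)
  constructor
  · intro h
    have h1 : range (y + 1) ⊆ (range R).filter (fun y => f y ≤ c) := by
      intro z hz
      rw [mem_range] at hz
      rw [mem_filter, mem_range]
      exact ⟨by omega, (hm z y (by omega) hy).trans h⟩
    have h2 := card_le_card h1
    rw [card_range] at h2
    omega
  · intro h
    by_contra hcon
    have h1 : (range R).filter (fun y => f y ≤ c) ⊆ range y := by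
      intro z hz
      rw [mem_filter, mem_range] at hz
      rw [mem_range]
      by_contra h2
      exact hcon ((hm y z (by omega) hz.1).trans hz.2)
    have h2 := card_le_card h1
    rw [card_range] at h2
    omega

variable {μ R N : ℕ} {κ x : ℕ → ℕ}

theorem sc_le (c : ℕ) : sc R κ c ≤ R := by
  unfold sc
  exact (card_filter_le _ _).trans (card_range R).le

theorem k_iff (h : Play μ R N κ x) (c : ℕ) {y : ℕ} (hy : y < R) :
    κ y ≤ c ↔ y < sc R κ c := cnt h.mono c hy

theorem aa_mono (h : Play μ R N κ x) (y : ℕ) (hy : y + 1 < R) :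
    aa κ x y ≤ aa κ x (y + 1) := by
  have h1 := h.mono y hy
  have h2 := h.inc y hy
  unfold aa
  by_cases h3 : 0 < x y
  · rcases h1.eq_or_lt with h4 | h4
    · have h5 := h2 h3 h4.symm
      rw [if_pos h3, if_pos (by omega)]
      omega
    · rw [if_pos h3]
      omega
  · rw [if_neg h3]
    omega

theorem a_iff (h : Play μ R N κ x) (c : ℕ) {y : ℕ} (hy : y < R) :
    aa κ x y ≤ c ↔ y < ac R κ x c := cnt (aa_mono h) c hy

theorem mov_iff (h : Play μ R N κ x) (c : ℕ) {t : ℕ} (ht : t < R) :
    (κ t = c ∧ 0 < x t) ↔ (ac R κ x c ≤ t ∧ t < sc R κ c) := by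
  have h1 := k_iff h c ht
  have h2 := a_iff h c ht
  unfold aa at h2
  constructor
  · rintro ⟨h3, h4⟩
    rw [if_pos h4] at h2
    refine ⟨?_, h1.1 h3.le⟩
    by_contra h5
    have h6 := h2.2 (by omega)
    omega
  · rintro ⟨h3, h4⟩
    have h5 := h1.2 h4
    have h6 : ¬ (κ t + if 0 < x t then 1 else 0) ≤ c := fun h7 => by
      have := h2.1 h7
      omega
    by_cases h7 : 0 < x t
    · rw [if_pos h7] at h6
      exact ⟨by omega, h7⟩
    · rw [if_neg h7] at h6
      omega

theorem ac_le (c : ℕ) : ac R κ x c ≤ sc R κ c := by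
  unfold ac sc
  refine card_le_card ?_
  intro y hy
  rw [mem_filter] at hy ⊢
  refine ⟨hy.1, ?_⟩
  have h1 := hy.2
  unfold aa at h1
  omega

/-- The increasing chain. -/
theorem chain (h : Play μ R N κ x) (c : ℕ) {t t' : ℕ} (h1 : ac R κ x c ≤ t) (h2 : t ≤ t')
    (h3 : t' < sc R κ c) : x t + (t' - t) ≤ x t' := by
  induction h2 with
  | refl => omega
  | @step m hm ih =>
    have hsR := sc_le (R := R) (κ := κ) c
    have hm' : t ≤ m := hm
    have h4 := ih (by omega)
    have h5 := (mov_iff h c (t := m) (by omega)).2 ⟨by omega, by omega⟩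
    have h6 := (mov_iff h c (t := m + 1) (by omega)).2 ⟨by omega, h3⟩
    have h7 := h.inc m (by omega) h5.2 (by rw [h5.1, h6.1])
    have h8 : m.succ = m + 1 := rfl
    rw [h8]
    omega

theorem x_ge (h : Play μ R N κ x) (c : ℕ) {t : ℕ} (h1 : ac R κ x c ≤ t)
    (h3 : t < sc R κ c) : 1 + t ≤ x t + ac R κ x c := by
  have hsR := sc_le (R := R) (κ := κ) c
  have h4 := chain h c (le_refl (ac R κ x c)) h1 h3
  have h5 := (mov_iff h c (t := ac R κ x c) (by omega)).2 ⟨le_rfl, by omega⟩
  omega

theorem x_le (h : Play μ R N κ x) (c : ℕ) {t : ℕ} (h1 : ac R κ x c ≤ t)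
    (h3 : t < sc R κ c) (h4 : sc R κ c < R) : x t + sc R κ c ≤ μ + t := by
  have h5 := chain h c h1 (show t ≤ sc R κ c - 1 by omega) (by omega)
  have h6 := h.lt (sc R κ c - 1) (by omega)
  omega

theorem st_eq (h : Play μ R N κ x) (c : ℕ) {z : ℕ} (h1 : sc R κ c ≤ z) (h2 : z < R) :
    st κ c z = sc R κ c := by
  have h3 : (range z).filter (fun y => κ y ≤ c) = range (sc R κ c) := by
    ext y
    rw [mem_filter, mem_range, mem_range]
    constructor
    · rintro ⟨h4, h5⟩
      exact (k_iff h c (by omega)).1 h5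
    · intro h4
      exact ⟨by omega, (k_iff h c (by omega)).2 h4⟩
  unfold st
  rw [h3, card_range]

theorem mv_eq (h : Play μ R N κ x) (c : ℕ) {z : ℕ} (h1 : sc R κ c ≤ z) (h2 : z < R) :
    mv κ x (fun _ => μ) c z =
      (Ico (ac R κ x c) (sc R κ c)).filter (fun t => μ + t < x t + z) := by
  ext t
  unfold mv
  rw [mem_filter, mem_filter, mem_range, mem_Ico]
  constructor
  · rintro ⟨h4, h5, h6, h7⟩
    exact ⟨(mov_iff h c (by omega)).1 ⟨h5, h6⟩, h7⟩
  · rintro ⟨h4, h5⟩
    have h6 := (mov_iff h c (t := t) (by omega)).2 h4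
    exact ⟨by omega, h6.1, h6.2, h5⟩

theorem va_eq (h : Play μ R N κ x) {c z : ℕ} (h2 : z < R) (h3 : c < κ z) :
    sc R κ c ≤ z ∧ va μ R κ x c z = μ - (z - sc R κ c) -
      ((Ico (ac R κ x c) (sc R κ c)).filter (fun t => μ + t < x t + z)).card := by
  have h1 : sc R κ c ≤ z := by
    by_contra h4
    have := (k_iff h c h2).2 (by omega)
    omega
  refine ⟨h1, ?_⟩
  unfold va nn
  rw [if_neg (by omega), if_neg (by omega), if_neg (by omega), st_eq h c h1 h2, mv_eq h c h1 h2]

theorem E_eq (h : Play μ R N κ x) {c z : ℕ} (h2 : z < R) (h3 : c < κ z) :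
    (range z).filter (fun t => κ t = c ∧ 0 < x t ∧ μ + t = x t + z) =
      (Ico (ac R κ x c) (sc R κ c)).filter (fun t => μ + t = x t + z) := by
  have h1 := (va_eq h h2 h3).1
  ext t
  rw [mem_filter, mem_filter, mem_range, mem_Ico]
  constructor
  · rintro ⟨h4, h5, h6, h7⟩
    exact ⟨(mov_iff h c (by omega)).1 ⟨h5, h6⟩, h7⟩
  · rintro ⟨h4, h5⟩
    have h6 := (mov_iff h c (t := t) (by omega)).2 h4
    exact ⟨by omega, h6.1, h6.2, h5⟩

theorem cnt_le (c z : ℕ) (P : ℕ → Prop) [DecidablePred P] :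
    ((Ico (ac R κ x c) (sc R κ c)).filter P).card ≤ sc R κ c - ac R κ x c := by
  refine (card_filter_le _ _).trans ?_
  rw [Nat.card_Ico]

theorem cnt_all (h : Play μ R N κ x) {c z : ℕ} (h3 : ac R κ x c + μ ≤ z) :
    ((Ico (ac R κ x c) (sc R κ c)).filter (fun t => μ + t < x t + z)).card =
      sc R κ c - ac R κ x c ∧
    ((Ico (ac R κ x c) (sc R κ c)).filter (fun t => μ + t = x t + z)).card = 0 := by
  constructor
  · rw [filter_true_of_mem, Nat.card_Ico]
    intro t ht
    rw [mem_Ico] at ht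
    have := x_ge h c ht.1 ht.2
    omega
  · rw [card_eq_zero, filter_eq_empty_iff]
    intro t ht
    rw [mem_Ico] at ht
    have := x_ge h c ht.1 ht.2
    omega

theorem item6 (h : Play μ R N κ x) {c y : ℕ} (hy : y < R) (hc : c < κ y) :
    st κ c y = sc R κ c ∧ sc R κ c ≤ y ∧
    ac R κ x c + μ ≤ va μ R κ x c y + y ∧ (0 < va μ R κ x c y ↔ y < ac R κ x c + μ) := by
  obtain ⟨h1, h2⟩ := va_eq h hy hc
  have h3 := cnt_le (R := R) (κ := κ) (x := x) c y (fun t => μ + t < x t + y)
  have h4 := ac_le (R := R) (κ := κ) (x := x) c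
  have h5 : ac R κ x c + μ ≤ va μ R κ x c y + y := by
    rw [h2]
    omega
  refine ⟨st_eq h c h1 hy, h1, h5, ?_⟩
  constructor
  · intro h6
    by_contra h7
    have h8 := (cnt_all h (c := c) (z := y) (by omega)).1
    rw [h2, h8] at h6
    omega
  · intro h6
    omega

theorem goalH1 : GoalH1 := by
  intro μ R N κ x hμ hR h
  refine ⟨fun c y hy => ⟨k_iff h c hy, a_iff h c hy⟩, fun c t ht => mov_iff h c ht,
    fun c => ac_le c, ?_, ?_, ?_, ?_⟩
  · intro c hc
    have h1 : c < κ (sc R κ c) := by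
      by_contra h2
      have := (k_iff h c hc).1 (by omega)
      omega
    rw [(va_eq h hc h1).2]
    have h2 : (Ico (ac R κ x c) (sc R κ c)).filter (fun t => μ + t < x t + sc R κ c) = ∅ := by
      rw [filter_eq_empty_iff]
      intro t ht
      rw [mem_Ico] at ht
      have := x_le h c ht.1 ht.2 hc
      omega
    rw [h2, card_empty]
    omega
  · intro c t h1 h2
    refine ⟨fun h3 => x_le h c h1 h2 h3, ?_⟩
    have h4 := x_ge h c h1 h2
    unfold U
    omega
  · intro y hy c hc
    exact item6 h hy hc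
  · intro y hy c hc
    have hc' : c < κ (y + 1) := lt_of_lt_of_le hc (h.mono y hy)
    have hy' : y < R := by omega
    rw [E_eq h hy' hc]
    obtain ⟨h1, h2⟩ := va_eq h hy' hc
    obtain ⟨h3, h4⟩ := va_eq h hy hc'
    have h5 := ac_le (R := R) (κ := κ) (x := x) c
    have h6 := cnt_le (R := R) (κ := κ) (x := x) c y (fun t => μ + t < x t + (y + 1))
    have h7 : ((Ico (ac R κ x c) (sc R κ c)).filter (fun t => μ + t < x t + (y + 1))).card =
        ((Ico (ac R κ x c) (sc R κ c)).filter (fun t => μ + t < x t + y)).card +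
        ((Ico (ac R κ x c) (sc R κ c)).filter (fun t => μ + t = x t + y)).card := by
      rw [← card_union_of_disjoint]
      · congr 1
        ext t
        simp only [mem_union, mem_filter]
        constructor
        · rintro ⟨h8, h9⟩
          by_cases h10 : μ + t < x t + y
          · exact Or.inl ⟨h8, h10⟩
          · exact Or.inr ⟨h8, by omega⟩
        · rintro (⟨h8, h9⟩ | ⟨h8, h9⟩)
          · exact ⟨h8, by omega⟩
          · exact ⟨h8, by omega⟩
      · rw [disjoint_left]
        intro t ht ht'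
        rw [mem_filter] at ht ht'
        omega
    have h8 := (item6 h hy' hc).2.2.2
    have h9 := (item6 h hy hc').2.2.2
    constructor
    · intro h10
      have h11 := h8.1 h10
      rw [h4, h2]
      omega
    · intro h10
      have h11 : ac R κ x c + μ ≤ y := by
        by_contra h12
        have := h8.2 (by omega)
        omega
      refine ⟨?_, (cnt_all h h11).2⟩
      by_contra h12
      have := h9.1 (Nat.pos_of_ne_zero h12)
      omega

end Pool.Agent.Helper43.Hw.PkH1
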